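import Pool.Agent.V7H85.OK.Spec

/-! No invariant planes with eigenvalues of the same modulus (DYN). -/

set_option autoImplicit false

namespace Pool.Agent.V7H31.OK

open Pool.Agent.V7H85.OK Finset Matrix

variable {w : ℕ}

theorem two_le {p q : Fin w → ℝ} (h : LinearIndependent ℝ ![p, q]) : 2 ≤ w := by
  have h1 := h.fintype_card_le_finrank
  simpa using h1

theorem no_eig (hC : S_CHP) {M : Matrix (Fin w) (Fin w) ℝ} (hM : Mono M) (hw : 2 ≤ w)
    {x : Fin w → ℝ} (hx : x ≠ 0) (h0 : x ⟨0, by omega⟩ = 0) {l : ℝ} (hl : l ≠ 0)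
    (h : M *ᵥ x = l • x) : False := by
  obtain ⟨-, -, -, h4, h5⟩ := hC w x
  obtain ⟨c, hc, c', hc', hlt⟩ := h5 hw h0
  have h6 := hM x hx c' hc' c (by rw [h, h4 l hl]; exact hc)
  omega

/-- monotone sequences -/
theorem chain (hC : S_CHP) {y : ℕ → Fin w → ℝ}
    (h : ∀ n, ∀ c ∈ Ch (y n), ∀ c' ∈ Ch (y (n + 1)), c ≤ c') :
    ∀ k n, ∀ c ∈ Ch (y n), ∀ c' ∈ Ch (y (n + (k + 1))), c ≤ c' := by
  intro k
  induction k with
  | zero => exact h
  | succ k ih =>
    intro n c hc c' hc'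
    obtain ⟨d, hd⟩ := (hC w (y (n + (k + 1)))).1
    exact (ih n c hc d hd).trans (h _ d hd c' hc')

theorem part_b (hC : S_CHP) {M : Matrix (Fin w) (Fin w) ℝ} (hM : Mono M) {p q : Fin w → ℝ}
    {l : ℝ} (hl : l ≠ 0) (hp : p ≠ 0) (h1 : M *ᵥ p = l • p) (h2 : M *ᵥ q = l • q + p) :
    False := by
  obtain ⟨x, hx⟩ : ∃ x : ℝ → Fin w → ℝ, x = fun t => q + t • p := ⟨_, rfl⟩
  have hx0 : ∀ t, x t ≠ 0 := by
    intro t h
    rw [hx] at h
    have h3 : q = -(t • p) := eq_neg_of_add_eq_zero_left h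
    rw [h3, mulVec_neg, mulVec_smul, h1] at h2
    apply hp
    have h4 : p = -(t • l • p) - l • -(t • p) := by
      rw [h2]
      abel
    rw [h4]
    module
  have hw : 2 ≤ w := by
    apply two_le (p := p) (q := q)
    rw [LinearIndependent.pair_iff]
    intro s t h
    by_cases ht : t = 0
    · refine ⟨?_, ht⟩
      rw [ht, zero_smul, add_zero] at h
      exact (smul_eq_zero.1 h).resolve_right hp
    · exfalso
      apply hx0 (t⁻¹ * s)
      rw [hx]
      have h3 : q + (t⁻¹ * s) • p = t⁻¹ • (s • p + t • q) := by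
        rw [smul_add, smul_smul, smul_smul, inv_mul_cancel₀ ht, one_smul, add_comm]
      show q + (t⁻¹ * s) • p = 0
      rw [h3, h, smul_zero]
  have hMx : ∀ t, M *ᵥ x t = l • x (t + 1 / l) := by
    intro t
    rw [hx]
    show M *ᵥ (q + t • p) = l • (q + (t + 1 / l) • p)
    rw [mulVec_add, mulVec_smul, h1, h2, smul_add, smul_smul, smul_smul]
    have h3 : l * (t + 1 / l) = t * l + 1 := by
      field_simp
    rw [h3, add_smul, one_smul]
    abel
  have hstep : ∀ t, ∀ c ∈ Ch (x t), ∀ c' ∈ Ch (x (t + 1 / l)), c ≤ c' := by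
    intro t c hc c' hc'
    refine hM (x t) (hx0 t) c hc c' ?_
    rw [hMx, (hC w (x (t + 1 / l))).2.2.2.1 l hl]
    exact hc'
  obtain ⟨⟨s, hs⟩, -, ⟨ε, hε, h3⟩, h4, -⟩ := hC w p
  have hsing : ∀ c ∈ Ch p, c = s := by
    intro c hc
    apply le_antisymm
    · exact hM p hp c hc s (by rw [h1, h4 l hl]; exact hs)
    · exact hM p hp s hs c (by rw [h1, h4 l hl]; exact hc)
  obtain ⟨R, hR⟩ : ∃ R : ℝ, R = (∑ i, |q i| + 1) / ε := ⟨_, rfl⟩
  have hsum : 0 ≤ ∑ i, |q i| := Finset.sum_nonneg fun i _ => abs_nonneg _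
  have hR0 : 0 < R := by
    rw [hR]
    positivity
  have hlarge : ∀ t, R < |t| → ∀ c ∈ Ch (x t), c = s := by
    intro t ht c hc
    have ht0 : t ≠ 0 := by
      rintro rfl
      rw [abs_zero] at ht
      linarith
    apply hsing
    have h5 : x t = t • (p + t⁻¹ • q) := by
      rw [hx]
      show q + t • p = t • (p + t⁻¹ • q)
      rw [smul_add, smul_smul, mul_inv_cancel₀ ht0, one_smul, add_comm]
    rw [h5, (hC w (p + t⁻¹ • q)).2.2.2.1 t ht0] at hc
    refine h3 _ (fun i => ?_) hc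
    have h6 : (p + t⁻¹ • q) i - p i = t⁻¹ * q i := by
      simp
    rw [h6, abs_mul, abs_inv]
    have h7 : |q i| ≤ ∑ i, |q i| :=
      Finset.single_le_sum (f := fun i => |q i|) (fun i _ => abs_nonneg _) (Finset.mem_univ i)
    rw [inv_mul_lt_iff₀ (abs_pos.2 ht0)]
    calc |q i| < ∑ i, |q i| + 1 := by linarith
      _ = R * ε := by
        rw [hR]
        field_simp
      _ < |t| * ε := by gcongr
  have hall : ∀ t, ∀ c ∈ Ch (x t), c = s := by
    intro t c hc
    obtain ⟨N, hN⟩ := exists_nat_gt ((R + |t|) * |l|)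
    have hl' : 0 < |l| := abs_pos.2 hl
    have hN0 : (0 : ℝ) < N := lt_of_le_of_lt (by positivity) hN
    have hN1 : 1 ≤ N := by
      have : 0 < N := by exact_mod_cast hN0
      omega
    have h5 : R + |t| < |(N : ℝ) / l| := by
      rw [abs_div, abs_of_pos hN0, lt_div_iff₀ hl']
      exact hN
    have h6 : R < |t + N / l| := by
      have h7 := abs_sub_abs_le_abs_sub ((N : ℝ) / l) (-t)
      rw [abs_neg, sub_neg_eq_add, add_comm ((N : ℝ) / l) t] at h7
      linarith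
    have h8 : R < |t - N / l| := by
      have h7 := abs_sub_abs_le_abs_sub ((N : ℝ) / l) t
      rw [abs_sub_comm] at h7
      linarith
    obtain ⟨y, hy⟩ : ∃ y : ℕ → Fin w → ℝ, y = fun n : ℕ => x (t - N / l + (n : ℝ) / l) := ⟨_, rfl⟩
    have hyy : ∀ n, ∀ c ∈ Ch (y n), ∀ c' ∈ Ch (y (n + 1)), c ≤ c' := by
      intro n c hc c' hc'
      rw [hy] at hc hc'
      refine hstep _ c hc c' ?_
      have h9 : t - N / l + n / l + 1 / l = t - N / l + ((n + 1 : ℕ) : ℝ) / l := by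
        push_cast
        ring
      rw [h9]
      exact hc'
    have h10 := chain hC hyy
    have hyN : y N = x t := by
      rw [hy]
      show x (t - N / l + N / l) = x t
      congr 1
      ring
    have hy0 : y 0 = x (t - N / l) := by
      rw [hy]
      show x (t - N / l + ((0 : ℕ) : ℝ) / l) = x (t - N / l)
      congr 1
      simp
    have hy2 : y (N + N) = x (t + N / l) := by
      rw [hy]
      show x (t - N / l + ((N + N : ℕ) : ℝ) / l) = x (t + N / l)
      congr 1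
      push_cast
      ring
    apply le_antisymm
    · obtain ⟨d, hd⟩ := (hC w (y (N + N))).1
      have h11 := h10 (N - 1) N c (by rw [hyN]; exact hc) d (by
        rw [show N + (N - 1 + 1) = N + N by omega]
        exact hd)
      rw [hy2] at hd
      rwa [hlarge _ h6 d hd] at h11
    · obtain ⟨d, hd⟩ := (hC w (y 0)).1
      have h11 := h10 (N - 1) 0 d hd c (by
        rw [show 0 + (N - 1 + 1) = N by omega, hyN]
        exact hc)
      rw [hy0] at hd
      rwa [hlarge _ h8 d hd] at h11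
  by_cases hp0 : p ⟨0, by omega⟩ = 0
  · exact no_eig hC hM hw hp hp0 hl h1
  · obtain ⟨t, ht⟩ : ∃ t : ℝ, x t ⟨0, by omega⟩ = 0 := by
      refine ⟨-(q ⟨0, by omega⟩ / p ⟨0, by omega⟩), ?_⟩
      rw [hx]
      show q ⟨0, by omega⟩ + -(q ⟨0, by omega⟩ / p ⟨0, by omega⟩) * p ⟨0, by omega⟩ = 0
      field_simp
      ring
    obtain ⟨c, hc, c', hc', hlt⟩ := (hC w (x t)).2.2.2.2 hw ht
    have h5 := hall t c hc
    have h6 := hall t c' hc'
    omega

theorem part_c (hC : S_CHP) {M : Matrix (Fin w) (Fin w) ℝ} (hM : Mono M) {a b : Fin w → ℝ}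
    {α β : ℝ} (hβ : β ≠ 0) (hab : a ≠ 0 ∨ b ≠ 0) (h1 : M *ᵥ a = α • a - β • b)
    (h2 : M *ᵥ b = β • a + α • b) : False := by
  obtain ⟨X, hX⟩ : ∃ X : ℂ → Fin w → ℝ, X = fun z => z.re • a - z.im • b := ⟨_, rfl⟩
  obtain ⟨lam, hlam⟩ : ∃ lam : ℂ, lam = ⟨α, β⟩ := ⟨_, rfl⟩
  have hre : lam.re = α := by rw [hlam]
  have him : lam.im = β := by rw [hlam]
  have hMX : ∀ z, M *ᵥ X z = X (lam * z) := by
    intro z
    rw [hX]
    show M *ᵥ (z.re • a - z.im • b) = (lam * z).re • a - (lam * z).im • b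
    rw [mulVec_sub, mulVec_smul, mulVec_smul, h1, h2, Complex.mul_re, Complex.mul_im, hre, him]
    module
  have hX0 : ∀ z, z ≠ 0 → X z ≠ 0 := by
    intro z hz h
    have h3 : z.re • a - z.im • b = 0 := by
      rw [hX] at h
      exact h
    have h4 : z.im • a + z.re • b = 0 := by
      have h5 := hMX z
      rw [h, mulVec_zero, hX] at h5
      have h6 : (lam * z).re • a - (lam * z).im • b = 0 := h5.symm
      rw [Complex.mul_re, Complex.mul_im, hre, him] at h6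
      have h7 : β • (z.im • a + z.re • b) = 0 := by
        have h8 : β • (z.im • a + z.re • b) = α • (z.re • a - z.im • b) -
            ((α * z.re - β * z.im) • a - (α * z.im + β * z.re) • b) := by
          module
        rw [h8, h3, h6]
        simp
      exact (smul_eq_zero.1 h7).resolve_left hβ
    have hn : z.re ^ 2 + z.im ^ 2 ≠ 0 := by
      intro h5
      apply hz
      have h6 : z.re = 0 := by nlinarith [sq_nonneg z.re, sq_nonneg z.im]
      have h7 : z.im = 0 := by nlinarith [sq_nonneg z.re, sq_nonneg z.im]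
      exact Complex.ext h6 h7
    have ha : a = 0 := by
      have h5 : (z.re ^ 2 + z.im ^ 2) • a = 0 := by
        have h6 : (z.re ^ 2 + z.im ^ 2) • a = z.re • (z.re • a - z.im • b) +
            z.im • (z.im • a + z.re • b) := by
          module
        rw [h6, h3, h4]
        simp
      exact (smul_eq_zero.1 h5).resolve_left hn
    have hb : b = 0 := by
      have h5 : (z.re ^ 2 + z.im ^ 2) • b = 0 := by
        have h6 : (z.re ^ 2 + z.im ^ 2) • b = -(z.im • (z.re • a - z.im • b)) +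
            z.re • (z.im • a + z.re • b) := by
          module
        rw [h6, h3, h4]
        simp
      exact (smul_eq_zero.1 h5).resolve_left hn
    rcases hab with h5 | h5
    · exact h5 ha
    · exact h5 hb
  have hw : 2 ≤ w := by
    apply two_le (p := a) (q := b)
    rw [LinearIndependent.pair_iff]
    intro s t h
    by_contra h3
    have hz : (⟨s, -t⟩ : ℂ) ≠ 0 := by
      intro h4
      have h5 := congrArg Complex.re h4
      have h6 := congrArg Complex.im h4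
      simp only [Complex.zero_re, Complex.zero_im] at h5 h6
      exact h3 ⟨h5, by linarith⟩
    apply hX0 _ hz
    rw [hX]
    show s • a - (-t) • b = 0
    rw [neg_smul, sub_neg_eq_add]
    exact h
  have hlam0 : lam ≠ 0 := by
    intro h
    apply hβ
    rw [← him, h]
    rfl
  have hnorm : ‖lam‖ ≠ 0 := norm_ne_zero_iff.2 hlam0
  obtain ⟨μ, hμ⟩ : ∃ μ : ℂ, μ = lam / (‖lam‖ : ℂ) := ⟨_, rfl⟩
  have hμ1 : ‖μ‖ = 1 := by
    rw [hμ, norm_div, Complex.norm_real, norm_norm, div_self hnorm]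
  have hμ0 : μ ≠ 0 := by
    rw [← norm_ne_zero_iff, hμ1]
    exact one_ne_zero
  have hsc : ∀ z, X (lam * z) = ‖lam‖ • X (μ * z) := by
    intro z
    have h3 : lam * z = (‖lam‖ : ℂ) * (μ * z) := by
      rw [hμ]
      have : (‖lam‖ : ℂ) ≠ 0 := by exact_mod_cast hnorm
      field_simp
    rw [h3, hX]
    show ((‖lam‖ : ℂ) * (μ * z)).re • a - ((‖lam‖ : ℂ) * (μ * z)).im • b =
      ‖lam‖ • ((μ * z).re • a - (μ * z).im • b)
    rw [Complex.re_ofReal_mul, Complex.im_ofReal_mul]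
    module
  have hstep : ∀ z, z ≠ 0 → ∀ c ∈ Ch (X z), ∀ c' ∈ Ch (X (μ * z)), c ≤ c' := by
    intro z hz c hc c' hc'
    refine hM (X z) (hX0 z hz) c hc c' ?_
    rw [hMX, hsc, (hC w (X (μ * z))).2.2.2.1 _ hnorm]
    exact hc'
  -- a vector whose first coordinate vanishes
  obtain ⟨z0, hz0, hz00⟩ : ∃ z0 : ℂ, z0 ≠ 0 ∧ X z0 ⟨0, by omega⟩ = 0 := by
    by_cases h3 : a ⟨0, by omega⟩ = 0 ∧ b ⟨0, by omega⟩ = 0
    · refine ⟨1, one_ne_zero, ?_⟩
      rw [hX]
      show (1 : ℂ).re * a ⟨0, by omega⟩ - (1 : ℂ).im * b ⟨0, by omega⟩ = 0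
      rw [h3.1, h3.2]
      ring
    · refine ⟨⟨b ⟨0, by omega⟩, a ⟨0, by omega⟩⟩, ?_, ?_⟩
      · intro h4
        exact h3 ⟨congrArg Complex.im h4, congrArg Complex.re h4⟩
      · rw [hX]
        show b ⟨0, by omega⟩ * a ⟨0, by omega⟩ - a ⟨0, by omega⟩ * b ⟨0, by omega⟩ = 0
        ring
  obtain ⟨c, hc, c', hc', hlt⟩ := (hC w (X z0)).2.2.2.2 hw hz00
  obtain ⟨z1, hz1⟩ : ∃ z1 : ℂ, z1 = μ⁻¹ * z0 := ⟨_, rfl⟩
  have hz10 : z1 ≠ 0 := by
    rw [hz1]
    exact mul_ne_zero (inv_ne_zero hμ0) hz0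
  obtain ⟨y, hy⟩ : ∃ y : ℕ → Fin w → ℝ, y = fun n => X (μ ^ n * z1) := ⟨_, rfl⟩
  have hyy : ∀ n, ∀ c ∈ Ch (y n), ∀ c' ∈ Ch (y (n + 1)), c ≤ c' := by
    intro n c hc c' hc'
    rw [hy] at hc hc'
    refine hstep _ (mul_ne_zero (pow_ne_zero n hμ0) hz10) c hc c' ?_
    have h3 : μ * (μ ^ n * z1) = μ ^ (n + 1) * z1 := by ring
    rw [h3]
    exact hc'
  have hch := chain hC hyy
  have hy1 : y 1 = X z0 := by
    rw [hy]
    show X (μ ^ 1 * z1) = X z0
    rw [hz1, pow_one, ← mul_assoc, mul_inv_cancel₀ hμ0, one_mul]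
  have hy0 : y 0 = X z1 := by
    rw [hy]
    show X (μ ^ 0 * z1) = X z1
    rw [pow_zero, one_mul]
  -- recurrence
  obtain ⟨ε, hε, hnear⟩ := (hC w (X z1)).2.2.1
  obtain ⟨S, hS⟩ : ∃ S : ℝ, S = ∑ i, (|a i| + |b i|) + 1 := ⟨_, rfl⟩
  have hS0 : 0 < S := by
    have : 0 ≤ ∑ i, (|a i| + |b i|) := Finset.sum_nonneg fun i _ => by positivity
    rw [hS]
    linarith
  have hz1n : 0 < ‖z1‖ := norm_pos_iff.2 hz10
  obtain ⟨N, hN2, hN⟩ : ∃ N : ℕ, 2 ≤ N ∧ ‖μ ^ N - 1‖ < ε / (S * ‖z1‖) := by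
    have hδ : 0 < ε / (S * ‖z1‖) / 2 := by positivity
    have hmem : ∀ n : ℕ, μ ^ n ∈ Metric.closedBall (0 : ℂ) 1 := by
      intro n
      rw [mem_closedBall_zero_iff, norm_pow, hμ1, one_pow]
    obtain ⟨u, -, φ, hφ, hlim⟩ :=
      (isCompact_closedBall (0 : ℂ) 1).tendsto_subseq hmem
    obtain ⟨k0, hk0⟩ := Filter.eventually_atTop.1
      ((Metric.tendsto_nhds.1 hlim) _ hδ)
    have h3 := hk0 k0 le_rfl
    have h4 := hk0 (k0 + 2) (by omega)
    have h5 : φ k0 < φ (k0 + 1) := hφ (by omega)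
    have h6 : φ (k0 + 1) < φ (k0 + 2) := hφ (by omega)
    refine ⟨φ (k0 + 2) - φ k0, by omega, ?_⟩
    have h7 : dist (μ ^ φ (k0 + 2)) (μ ^ φ k0) < ε / (S * ‖z1‖) := by
      have h8 := dist_triangle_right (μ ^ φ (k0 + 2)) (μ ^ φ k0) u
      have h9 : dist (μ ^ φ k0) u < ε / (S * ‖z1‖) / 2 := h3
      have h10 : dist (μ ^ φ (k0 + 2)) u < ε / (S * ‖z1‖) / 2 := h4
      linarith
    rw [dist_eq_norm] at h7
    have h8 : μ ^ φ (k0 + 2) - μ ^ φ k0 = μ ^ φ k0 * (μ ^ (φ (k0 + 2) - φ k0) - 1) := by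
      rw [mul_sub, mul_one, ← pow_add]
      congr 2
      omega
    rwa [h8, norm_mul, norm_pow, hμ1, one_pow, one_mul] at h7
  have hsub : Ch (y N) ⊆ Ch (X z1) := by
    refine hnear _ fun i => ?_
    rw [hy]
    show |X (μ ^ N * z1) i - X z1 i| < ε
    have h3 : X (μ ^ N * z1) i - X z1 i =
        ((μ ^ N - 1) * z1).re * a i - ((μ ^ N - 1) * z1).im * b i := by
      rw [hX]
      show ((μ ^ N * z1).re * a i - (μ ^ N * z1).im * b i) - (z1.re * a i - z1.im * b i) = _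
      rw [sub_mul, one_mul, Complex.sub_re, Complex.sub_im]
      ring
    have h4 : |a i| + |b i| < S := by
      have h5 : |a i| + |b i| ≤ ∑ i, (|a i| + |b i|) :=
        Finset.single_le_sum (f := fun i => |a i| + |b i|) (fun i _ => by positivity)
          (Finset.mem_univ i)
      rw [hS]
      linarith
    have h6 : ‖(μ ^ N - 1) * z1‖ * S < ε := by
      rw [norm_mul]
      rw [lt_div_iff₀ (by positivity)] at hN
      calc ‖μ ^ N - 1‖ * ‖z1‖ * S = ‖μ ^ N - 1‖ * (S * ‖z1‖) := by ring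
        _ < ε := hN
    rw [h3]
    calc |((μ ^ N - 1) * z1).re * a i - ((μ ^ N - 1) * z1).im * b i|
        ≤ |((μ ^ N - 1) * z1).re * a i| + |((μ ^ N - 1) * z1).im * b i| := abs_sub _ _
      _ = |((μ ^ N - 1) * z1).re| * |a i| + |((μ ^ N - 1) * z1).im| * |b i| := by
        rw [abs_mul, abs_mul]
      _ ≤ ‖(μ ^ N - 1) * z1‖ * |a i| + ‖(μ ^ N - 1) * z1‖ * |b i| := by
        gcongr
        · exact Complex.abs_re_le_norm _
        · exact Complex.abs_im_le_norm _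
      _ = ‖(μ ^ N - 1) * z1‖ * (|a i| + |b i|) := by ring
      _ ≤ ‖(μ ^ N - 1) * z1‖ * S := by gcongr
      _ < ε := h6
  obtain ⟨d, hd⟩ := (hC w (y N)).1
  have h3 : c' ≤ d := by
    refine hch (N - 2) 1 c' (by rw [hy1]; exact hc') d ?_
    rw [show 1 + (N - 2 + 1) = N by omega]
    exact hd
  have h4 : d ≤ c := by
    refine hyy 0 d (by rw [hy0]; exact hsub hd) c ?_
    show c ∈ Ch (y (0 + 1))
    rw [zero_add, hy1]
    exact hc
  omega

theorem t_DYN : S_DYN := by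
  intro hC w M hM
  refine ⟨fun p q l hl hpq h1 h2 => ?_, fun p q l hl hp h1 h2 => part_b hC hM hl hp h1 h2,
    fun a b α β hβ hab h1 h2 => part_c hC hM hβ hab h1 h2⟩
  have hw := two_le hpq
  rw [LinearIndependent.pair_iff] at hpq
  by_cases hp : p ⟨0, by omega⟩ = 0
  · refine no_eig hC hM hw (x := p) ?_ hp hl h1
    intro h
    have h3 := (hpq 1 0 (by rw [h]; simp)).1
    exact one_ne_zero h3
  · refine no_eig hC hM hw (x := p ⟨0, by omega⟩ • q - q ⟨0, by omega⟩ • p) ?_ ?_ hl ?_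
    · intro h
      apply hp
      refine (hpq (-(q ⟨0, by omega⟩)) (p ⟨0, by omega⟩) ?_).2
      rw [← h]
      module
    · show p ⟨0, by omega⟩ * q ⟨0, by omega⟩ - q ⟨0, by omega⟩ * p ⟨0, by omega⟩ = 0
      ring
    · rw [mulVec_sub, mulVec_smul, mulVec_smul, h1, h2]
      module

end Pool.Agent.V7H31.OK
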